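import Pool.Agent.H4R2.HU.Two
import Pool.Agent.H4R2.HU.UP
import Pool.Agent.H4R2.HU.US
import Pool.Agent.H4R2.HU.UF
import Pool.Agent.H4R2.HU.UL
import Pool.Agent.H4R2.HU.UA
import Pool.Agent.H4R2.HU.UT
import Pool.Agent.H4R2.HU.UM
import Pool.Agent.H4R2.HU.UR
import Pool.Agent.H4R2.HU.UI
import Pool.Agent.H4R2.HU.UE
import Pool.Agent.H4R2.HD.KB
import Pool.Agent.H4R2.HD.KS
import Pool.Agent.H4R2.HD.BA

/-!
# Localization in high dimension, uniform disorder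

For the Anderson model `Δ_ω = -Δ + ω` on `ℤ^d` with iid `ω_j` uniform on `[-c, c]`: for all large `d`
and all `d^(-m) ≤ c ≤ δ d`, exponential localization (in particular purely singular spectrum) at
all energies outside `[-(1+ε) c² / (6 d), 4 d + (1+ε) c² / (6 d)]`.
-/

set_option autoImplicit false

open scoped BigOperators ENNReal
open MeasureTheory Filter

namespace Pool.Agent.Results.MP_562b47_mp.HighDimension

/-- the uniform law on `[-c, c]` -/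
noncomputable def unif (c : ℝ) : Measure ℝ :=
  ENNReal.ofReal (1 / (2 * c)) • volume.restrict (Set.Icc (-c) c)

/-- `(Δ_ω u)(j) = -∑_{|n|=1} (u(j+n) - u(j)) + ω_j u(j)` -/
noncomputable def H {d : ℕ} (ω : (Fin d → ℤ) → ℝ) (u : (Fin d → ℤ) → ℂ) (j : Fin d → ℤ) : ℂ :=
  -∑ i : Fin d, ((u (j + Pi.single i 1) - u j) + (u (j - Pi.single i 1) - u j)) + (ω j : ℂ) * u j

/-- square summable functions -/
def SqSummable {d : ℕ} (u : (Fin d → ℤ) → ℂ) : Prop := Summable fun x => ‖u x‖ ^ 2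

/-- `μ` is the spectral measure of the vector `g`: a finite measure whose Borel transform
`∫ (E - z)⁻¹ dμ(E)` is `⟨g, (H - z)⁻¹ g⟩` for all non-real `z` -/
def IsSpectralMeasure {d : ℕ} (A : ((Fin d → ℤ) → ℂ) → (Fin d → ℤ) → ℂ) (g : (Fin d → ℤ) → ℂ)
    (μ : Measure ℝ) : Prop :=
  IsFiniteMeasure μ ∧ ∀ z : ℂ, z.im ≠ 0 → ∃ u : (Fin d → ℤ) → ℂ, SqSummable u ∧
    (∀ x, A u x - z * u x = g x) ∧ ∫ E : ℝ, ((E : ℂ) - z)⁻¹ ∂μ = ∑' x, (starRingEnd ℂ) (g x) * u x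

/-- exponential localization of the operator `A` at the energies in `S`, with rate `m`:
every polynomially bounded solution of `A ψ = E ψ`, `E ∈ S`, decays exponentially with rate `m`, and
the spectral measures are pure point in `S` (carried there by a countable set) -/
def Localized {d : ℕ} (A : ((Fin d → ℤ) → ℂ) → (Fin d → ℤ) → ℂ) (S : Set ℝ) (m : ℝ) : Prop :=
  (∀ E ∈ S, ∀ ψ : (Fin d → ℤ) → ℂ, (∃ (C : ℝ) (n : ℕ), ∀ x, ‖ψ x‖ ≤ C * (1 + ‖x‖) ^ n) →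
    (∀ x, A ψ x = (E : ℂ) * ψ x) → ∃ C : ℝ, ∀ x, ‖ψ x‖ ≤ C * Real.exp (-(m * ‖x‖))) ∧
  ∃ N : Set ℝ, N.Countable ∧ ∀ (g : (Fin d → ℤ) → ℂ) (μ : Measure ℝ), SqSummable g →
    IsSpectralMeasure A g μ → μ (S \ N) = 0

theorem H_eq {d : ℕ} (ω : (Fin d → ℤ) → ℝ) :
    H ω = Pool.Agent.H4R2.LO.Hg (-1) (fun x => ω x + 2 * d) := by
  funext u x
  unfold H Pool.Agent.H4R2.LO.Hg
  have h : ∑ i : Fin d, ((u (x + Pi.single i 1) - u x) + (u (x - Pi.single i 1) - u x)) =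
      ∑ i : Fin d, (u (x + Pi.single i 1) + u (x - Pi.single i 1)) - 2 * (d : ℂ) * u x := by
    rw [Finset.sum_add_distrib, Finset.sum_sub_distrib, Finset.sum_sub_distrib,
      Finset.sum_add_distrib]
    simp
    ring
  rw [h]
  push_cast
  ring

theorem localized_of {d : ℕ} (ω : (Fin d → ℤ) → ℝ) (S : Set ℝ) (m : ℝ) (hm : 0 < m)
    (h : Pool.Agent.H4R2.LO.Main.Dec d (-1) (fun x => ω x + 2 * d) S m) :
    Localized (H ω) S m := by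
  rw [H_eq]
  exact ⟨h, Pool.Agent.H4R2.LO.Main.pure_point (-1) (fun x => ω x + 2 * d) S m hm h⟩

theorem localized_mono {d : ℕ} (A : ((Fin d → ℤ) → ℂ) → (Fin d → ℤ) → ℂ) (S S' : Set ℝ) (m : ℝ)
    (h : Localized A S m) (hS : S' ⊆ S) : Localized A S' m := by
  obtain ⟨h1, N, hN, h2⟩ := h
  refine ⟨fun E hE => h1 E (hS hE), N, hN, fun g μ hg hμ => ?_⟩
  exact measure_mono_null (Set.sdiff_subset_sdiff_left hS) (h2 g μ hg hμ)

open Pool.Agent.H4R2.HU in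
theorem result_aux (hUP : S_UP) (hUS : S_US) (hUF : S_UF) (hUL : S_UL) (h1 : S_UA1) (h2 : S_UA2)
    (h3 : S_UA3) (ε : ℝ) (hε : 0 < ε) (m : ℕ) :
    ∃ (δ : ℝ) (d₀ : ℕ), 0 < δ ∧ ∀ d : ℕ, d₀ ≤ d → ∀ c : ℝ, ((d : ℝ) ^ m)⁻¹ ≤ c → c ≤ δ * d →
      ∀ᵐ ω ∂(Measure.infinitePi fun _ : Fin d → ℤ => unif c),
        Localized (H ω) {E | E ≤ -((1 + ε) * c ^ 2 / (6 * d)) ∨
          4 * d + (1 + ε) * c ^ 2 / (6 * d) ≤ E} (((d : ℝ) ^ (2 * m + 7))⁻¹) := by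
  set ε' : ℝ := min ε 1 with hε'
  have hε0 : 0 < ε' := lt_min hε one_pos
  have hev := Fin.below hUP hUS hUF hUL h1 h2 h3 m ε' hε0 (min_le_right _ _)
  obtain ⟨d₀, hd₀⟩ := (hev.and (eventually_ge_atTop 1)).exists_forall_of_atTop
  set K : ℝ := 48 * ((6 * m + 20 : ℕ) : ℝ) * (((6 * m + 20 : ℕ) : ℝ) + 1) with hK
  have hK0 : 0 < K := by positivity
  refine ⟨ε' / K, d₀, by positivity, fun d hd c hc hcd => ?_⟩
  obtain ⟨hb, hd1⟩ := hd₀ d hd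
  have hd' : (1 : ℝ) ≤ d := by exact_mod_cast hd1
  have hc0 : 0 < c := lt_of_lt_of_le (by positivity) hc
  have hb1 := hb c hc (by
    rw [div_le_iff₀ hε0]
    have h4 : K * c ≤ K * (ε' / K * d) := mul_le_mul_of_nonneg_left hcd hK0.le
    have h5 : K * (ε' / K * d) = d * ε' := by field_simp
    linarith)
  have hb2 := Two.both d c _ _ hc0 hb1
  have e : (unif c) = Pool.Agent.H4R2.HU.unif c := rfl
  rw [e]
  filter_upwards [hb2] with ω hω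
  refine localized_mono _ _ _ _ (localized_of ω _ _ (by positivity) hω) ?_
  have h6 : (1 + ε') * c ^ 2 / (6 * d) ≤ (1 + ε) * c ^ 2 / (6 * d) := by
    have : ε' ≤ ε := min_le_left _ _
    gcongr
  rintro E (hE | hE)
  · left; linarith
  · right; linarith

/-- For every `ε > 0` and `m` there are `δ > 0` and `d₀` such that for all `d ≥ d₀` and all
disorders `d^(-m) ≤ c ≤ δ d` the Anderson model on `ℤ^d` is almost surely exponentially localized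
at all energies `E ≤ -(1+ε) c²/(6 d)` and `E ≥ 4 d + (1+ε) c²/(6 d)`. -/
theorem result (ε : ℝ) (hε : 0 < ε) (m : ℕ) :
    ∃ (δ : ℝ) (d₀ : ℕ), 0 < δ ∧ ∀ d : ℕ, d₀ ≤ d → ∀ c : ℝ, ((d : ℝ) ^ m)⁻¹ ≤ c → c ≤ δ * d →
      ∀ᵐ ω ∂(Measure.infinitePi fun _ : Fin d → ℤ => unif c),
        Localized (H ω) {E | E ≤ -((1 + ε) * c ^ 2 / (6 * d)) ∨
          4 * d + (1 + ε) * c ^ 2 / (6 * d) ≤ E} (((d : ℝ) ^ (2 * m + 7))⁻¹) :=
  result_aux
    (Pool.Agent.H4R2.HU.UP.UP (Pool.Agent.H4R2.HU.UT.UT (Pool.Agent.H4R2.HU.UM.um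
      Pool.Agent.H4R2.HU.UR.UR)) Pool.Agent.H4R2.HU.UI.ui0 Pool.Agent.H4R2.HU.UI.ui1
      Pool.Agent.H4R2.HU.UI.ui2 Pool.Agent.H4R2.HU.UE.UE1
      (Pool.Agent.H4R2.HU.UE.UE2 Pool.Agent.H4R2.HU.UR.UR) Pool.Agent.H4R2.HD.KB.KB
      (Pool.Agent.H4R2.HD.KS.KS Pool.Agent.H4R2.HD.BA.iter_sum Pool.Agent.H4R2.HD.BA.iter_mono
        Pool.Agent.H4R2.HD.BA.iter_const) Pool.Agent.H4R2.HD.BA.iter_abs
      Pool.Agent.H4R2.HD.BA.Gn_abs)
    Pool.Agent.H4R2.HU.US.US Pool.Agent.H4R2.HU.UF.UF Pool.Agent.H4R2.HU.UL.UL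
    Pool.Agent.H4R2.HU.UA.S_UA1_proof Pool.Agent.H4R2.HU.UA.S_UA2_proof
    Pool.Agent.H4R2.HU.UA.S_UA3_proof ε hε m

end Pool.Agent.Results.MP_562b47_mp.HighDimension
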