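import Pool.Agent.H4R2.LO.Fin
import Pool.Agent.H4R2.AE.Core2

/-!
# Localization up to the effective band edge, uniform disorder

For the Anderson model `Δ_ω = -Δ + ω` on `ℤ^d`, `d ≥ 4`, with iid `ω_j` uniform on `[-c, c]` and small
`c`: exponential localization (in particular purely singular spectrum) at all energies outside an
exponentially thin neighbourhood of the effective band `[E_*, 4 d - E_*]`.
-/

set_option autoImplicit false

open scoped BigOperators ENNReal
open MeasureTheory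

namespace Pool.Agent.Results.MP_562b47_mp.LocalizationToEdge

/-- the uniform law on `[-c, c]` -/
noncomputable def unif (c : ℝ) : Measure ℝ :=
  ENNReal.ofReal (1 / (2 * c)) • volume.restrict (Set.Icc (-c) c)

/-! ### The operator on `ℤ^d` -/

/-- `(Δ_ω u)(j) = -∑_{|n|=1} (u(j+n) - u(j)) + ω_j u(j)` -/
noncomputable def H {d : ℕ} (ω : (Fin d → ℤ) → ℝ) (u : (Fin d → ℤ) → ℂ) (j : Fin d → ℤ) : ℂ :=
  -∑ i : Fin d, ((u (j + Pi.single i 1) - u j) + (u (j - Pi.single i 1) - u j)) + (ω j : ℂ) * u j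

/-- square summable functions -/
def SqSummable {d : ℕ} (u : (Fin d → ℤ) → ℂ) : Prop := Summable fun x => ‖u x‖ ^ 2

/-- `μ` is the spectral measure of the vector `g`: a finite measure whose Borel transform
`∫ (E - z)⁻¹ dμ(E)` is `⟨g, (H - z)⁻¹ g⟩` for all non-real `z` -/
def IsSpectralMeasure {d : ℕ} (A : ((Fin d → ℤ) → ℂ) → (Fin d → ℤ) → ℂ) (g : (Fin d → ℤ) → ℂ)
    (μ : Measure ℝ) : Prop :=
  IsFiniteMeasure μ ∧ ∀ z : ℂ, z.im ≠ 0 → ∃ u : (Fin d → ℤ) → ℂ, SqSummable u ∧
    (∀ x, A u x - z * u x = g x) ∧ ∫ E : ℝ, ((E : ℂ) - z)⁻¹ ∂μ = ∑' x, (starRingEnd ℂ) (g x) * u x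

/-- exponential localization of the operator `A` at the energies in `S`, with rate `m`:
every polynomially bounded solution of `A ψ = E ψ`, `E ∈ S`, decays exponentially with rate `m`, and
the spectral measures are pure point in `S` (carried there by a countable set) -/
def Localized {d : ℕ} (A : ((Fin d → ℤ) → ℂ) → (Fin d → ℤ) → ℂ) (S : Set ℝ) (m : ℝ) : Prop :=
  (∀ E ∈ S, ∀ ψ : (Fin d → ℤ) → ℂ, (∃ (C : ℝ) (n : ℕ), ∀ x, ‖ψ x‖ ≤ C * (1 + ‖x‖) ^ n) →
    (∀ x, A ψ x = (E : ℂ) * ψ x) → ∃ C : ℝ, ∀ x, ‖ψ x‖ ≤ C * Real.exp (-(m * ‖x‖))) ∧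
  ∃ N : Set ℝ, N.Countable ∧ ∀ (g : (Fin d → ℤ) → ℂ) (μ : Measure ℝ), SqSummable g →
    IsSpectralMeasure A g μ → μ (S \ N) = 0

/-! ### The operator on a torus -/

/-- the discrete torus `(ℤ/L)^d` -/
abbrev T (d L : ℕ) : Type := Fin d → ZMod L

/-- `Δ_ω` on the torus -/
noncomputable def HT {d L : ℕ} (ω f : T d L → ℝ) (x : T d L) : ℝ :=
  -∑ i : Fin d, ((f (x + Pi.single i 1) - f x) + (f (x - Pi.single i 1) - f x)) + ω x * f x

/-- `Δ_ω` on the torus has an eigenfunction `ψ` with `1 ≤ ψ ≤ 1 + η` (its ground state), and the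
eigenvalue differs from `Es` by at most `K / L²` -/
def FlatAt {d L : ℕ} (η K Es : ℝ) (ω : T d L → ℝ) : Prop :=
  ∃ (E : ℝ) (ψ : T d L → ℝ), |E - Es| ≤ K / (L : ℝ) ^ 2 ∧ (∀ x, 1 ≤ ψ x ∧ ψ x ≤ 1 + η) ∧
    ∀ x, HT ω ψ x = E * ψ x

/-- the exponent `c^{-d/2}` for `d ≠ 4`, `1/c` for `d = 4` -/
noncomputable def sc (d : ℕ) (c : ℝ) : ℝ := if d = 4 then 1 / c else 1 / Real.sqrt c ^ d

/-! ### Translation -/

theorem unif_prob (c : ℝ) (hc : 0 < c) : IsProbabilityMeasure (unif c) := by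
  constructor
  unfold unif
  rw [Measure.smul_apply, Measure.restrict_apply MeasurableSet.univ, Set.univ_inter,
    Real.volume_Icc, smul_eq_mul, ← ENNReal.ofReal_mul (by positivity)]
  have : 1 / (2 * c) * (c - -c) = 1 := by
    field_simp
    ring
  rw [this, ENNReal.ofReal_one]

theorem unif_scale (c : ℝ) (hc : 0 < c) : (unif 1).map (fun t => c * t) = unif c := by
  have hm : MeasurableEmbedding (fun t : ℝ => c * t) :=
    (Homeomorph.mulLeft₀ c hc.ne').measurableEmbedding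
  ext S hS
  rw [Measure.map_apply hm.measurable hS]
  unfold unif
  rw [Measure.smul_apply, Measure.smul_apply, Measure.restrict_apply (hm.measurable hS),
    Measure.restrict_apply hS, smul_eq_mul, smul_eq_mul]
  have h1 : (fun t : ℝ => c * t) ⁻¹' S ∩ Set.Icc (-1) 1 =
      (fun t : ℝ => c * t) ⁻¹' (S ∩ Set.Icc (-c) c) := by
    ext t
    simp only [Set.mem_inter_iff, Set.mem_preimage, Set.mem_Icc]
    refine and_congr_right fun _ => ⟨fun h => ⟨by nlinarith [h.1], by nlinarith [h.2]⟩,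
      fun h => ⟨?_, ?_⟩⟩
    · have := h.1
      by_contra h2
      push Not at h2
      nlinarith
    · have := h.2
      by_contra h2
      push Not at h2
      nlinarith
  rw [h1, Real.volume_preimage_mul_left hc.ne', ← mul_assoc, ← ENNReal.ofReal_mul (by norm_num),
    abs_of_pos (inv_pos.2 hc)]
  congr 2
  field_simp

theorem unif_neg (c : ℝ) : (unif c).map (fun t => -t) = unif c := by
  ext S hS
  rw [Measure.map_apply measurable_neg hS]
  unfold unif
  rw [Measure.smul_apply, Measure.smul_apply, Measure.restrict_apply (measurable_neg hS),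
    Measure.restrict_apply hS, smul_eq_mul, smul_eq_mul]
  have h1 : (fun t : ℝ => -t) ⁻¹' S ∩ Set.Icc (-c) c = -(S ∩ Set.Icc (-c) c) := by
    ext t
    simp only [Set.mem_inter_iff, Set.mem_preimage, Set.mem_Icc, Set.mem_neg]
    refine and_congr_right fun _ => ⟨fun h => ⟨by linarith [h.2], by linarith [h.1]⟩,
      fun h => ⟨by linarith [h.2], by linarith [h.1]⟩⟩
  rw [h1, Measure.measure_neg]

theorem law_map (d : ℕ) (μ ν : Measure ℝ) [IsProbabilityMeasure μ] (f : ℝ → ℝ)
    (hf : Measurable f) (h : μ.map f = ν) :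
    (Measure.infinitePi fun _ : Fin d → ℤ => μ).map (fun ω x => f (ω x)) =
      Measure.infinitePi fun _ : Fin d → ℤ => ν := by
  have h1 := Measure.infinitePi_map_pi (μ := fun _ : Fin d → ℤ => μ)
    (f := fun _ (s : ℝ) => f s) (fun _ => hf)
  rw [h] at h1
  exact h1

theorem lawT_map (d L : ℕ) [NeZero L] (μ ν : Measure ℝ) [IsProbabilityMeasure μ]
    [IsProbabilityMeasure ν] (f : ℝ → ℝ)
    (hf : Measurable f) (h : μ.map f = ν) :
    (Measure.pi fun _ : T d L => μ).map (fun ω x => f (ω x)) =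
      Measure.pi fun _ : T d L => ν := by
  rw [← Measure.infinitePi_eq_pi, ← Measure.infinitePi_eq_pi]
  have h1 := Measure.infinitePi_map_pi (μ := fun _ : T d L => μ)
    (f := fun _ (s : ℝ) => f s) (fun _ => hf)
  rw [h] at h1
  exact h1

theorem H_eq {d : ℕ} (ω : (Fin d → ℤ) → ℝ) :
    H ω = Pool.Agent.H4R2.LO.Hg (-1) (fun x => ω x + 2 * d) := by
  funext u x
  unfold H Pool.Agent.H4R2.LO.Hg
  have h : ∑ i : Fin d, ((u (x + Pi.single i 1) - u x) + (u (x - Pi.single i 1) - u x)) =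
      ∑ i : Fin d, (u (x + Pi.single i 1) + u (x - Pi.single i 1)) - 2 * (d : ℂ) * u x := by
    rw [Finset.sum_add_distrib, Finset.sum_sub_distrib, Finset.sum_sub_distrib,
      Finset.sum_add_distrib]
    simp
    ring
  rw [h]
  push_cast
  ring

theorem HT_eq {d L : ℕ} (c : ℝ) (V f : T d L → ℝ) (x : T d L) :
    HT (fun y => c * V y) f x = Pool.Agent.H4R2.AE.Hop c V f x := by
  unfold HT Pool.Agent.H4R2.AE.Hop
  rw [← Finset.sum_neg_distrib]
  congr 1
  exact Finset.sum_congr rfl fun i _ => by ring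

theorem localized_of {d : ℕ} (ω : (Fin d → ℤ) → ℝ) (S : Set ℝ) (m : ℝ) (hm : 0 < m)
    (h : Pool.Agent.H4R2.LO.Main.Dec d (-1) (fun x => ω x + 2 * d) S m) :
    Localized (H ω) S m := by
  rw [H_eq]
  exact ⟨h, Pool.Agent.H4R2.LO.Main.pure_point (-1) (fun x => ω x + 2 * d) S m hm h⟩

/-- **Theorem.** -/
theorem result (d : ℕ) (hd : 4 ≤ d) (η : ℝ) (hη : 0 < η) (hη' : η ≤ 1) :
    ∃ k K : ℝ, 0 < k ∧ 0 < K ∧ ∀ c : ℝ, 0 < c → c ≤ k → ∃ Es : ℝ, |Es| ≤ c ∧
      -- (1) on tori of side up to `exp(k sc)` the ground state is flat and its energy is `Es + O(1/L²)`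
      (∀ (L : ℕ) [NeZero L], (L : ℝ) ≤ Real.exp (k * sc d c) →
        ∃ G : Set (T d L → ℝ), MeasurableSet G ∧
          1 - Real.exp (-(k * sc d c)) ≤ (Measure.pi fun _ : T d L => unif c).real G ∧
          ∀ ω ∈ G, FlatAt η K Es ω) ∧
      -- (2) localization at all energies at distance at least `exp(-k sc)` from `[Es, 4 d - Es]`
      ∀ κ : ℝ, Real.exp (-(k * sc d c)) ≤ κ → κ ≤ 1 →
        ∀ᵐ ω ∂(Measure.infinitePi fun _ : Fin d → ℤ => unif c),
          Localized (H ω) {E | E ≤ Es - κ ∨ 4 * d - Es + κ ≤ E}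
            (k * Real.sqrt κ / Real.log (2 / (κ * c))) := by
  have hP1 : IsProbabilityMeasure (unif 1) := unif_prob 1 one_pos
  have hD : unif 1 ≤ ENNReal.ofReal 1 • (volume : Measure ℝ) := by
    rw [Measure.le_iff]
    intro S hS
    unfold unif
    rw [Measure.smul_apply, Measure.smul_apply, smul_eq_mul, smul_eq_mul]
    exact mul_le_mul' (ENNReal.ofReal_le_ofReal (by norm_num)) (Measure.restrict_apply_le _ _)
  have hsupp : unif 1 (Set.Icc (-1) 1)ᶜ = 0 := by
    unfold unif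
    rw [Measure.smul_apply, Measure.restrict_apply (measurableSet_Icc.compl)]
    simp
  have hreg := Pool.Agent.H4R2.LO.Lw.reg_bdd (unif 1) 1 one_pos hsupp hD
  obtain ⟨c1, hc1, HT1⟩ := Pool.Agent.H4R2.AE.Core2.main_torus d hd η hη hη'
  obtain ⟨k, s0, K, hk, hs0, hK, HF⟩ := Pool.Agent.H4R2.LO.Fin.fin d (by omega) (1 + 4 * 1 ^ 2) c1
    (by norm_num) hc1
  -- the scale
  have hsc : ∀ c : ℝ, 0 < c → sc d c = 1 / Pool.Agent.H4R2.AE.scaleS d c := by
    intro c hc
    unfold sc Pool.Agent.H4R2.AE.scaleS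
    split_ifs <;> rfl
  have hscpos : ∀ c : ℝ, 0 < c → 0 < Pool.Agent.H4R2.AE.scaleS d c := by
    intro c hc
    unfold Pool.Agent.H4R2.AE.scaleS
    split_ifs
    · exact hc
    · exact pow_pos (Real.sqrt_pos.2 hc) d
  have hscle : ∀ c : ℝ, 0 < c → c ≤ 1 → Pool.Agent.H4R2.AE.scaleS d c ≤ c := by
    intro c hc hc1
    unfold Pool.Agent.H4R2.AE.scaleS
    split_ifs
    · exact le_rfl
    · have h1 : Real.sqrt c ≤ 1 := Real.sqrt_le_one.2 hc1 
      calc Real.sqrt c ^ d ≤ Real.sqrt c ^ 2 :=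
            pow_le_pow_of_le_one (Real.sqrt_nonneg c) h1 (by omega)
        _ = c := Real.sq_sqrt hc.le
  refine ⟨min k (min c1 (min s0 1)), K, by positivity, hK, ?_⟩
  intro c hc hck
  have hck1 : c ≤ k := hck.trans (min_le_left _ _)
  have hcc1 : c ≤ c1 := hck.trans ((min_le_right _ _).trans (min_le_left _ _))
  have hcs0 : c ≤ s0 := hck.trans ((min_le_right _ _).trans ((min_le_right _ _).trans
    (min_le_left _ _)))
  have hc1' : c ≤ 1 := hck.trans ((min_le_right _ _).trans ((min_le_right _ _).trans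
    (min_le_right _ _)))
  set s := Pool.Agent.H4R2.AE.scaleS d c with hs
  have hspos : 0 < s := hscpos c hc
  have hsc' : s ≤ c := hscle c hc hc1'
  have hPc : IsProbabilityMeasure (unif c) := unif_prob c hc
  set k' : ℝ := min k (min c1 (min s0 1)) with hk'
  have hk'k : k' ≤ k := min_le_left _ _
  have hk'pos : 0 < k' := by positivity
  have hexp1 : k' * sc d c ≤ k / s := by
    rw [hsc c hc, ← hs, mul_one_div]
    exact div_le_div_of_nonneg_right hk'k hspos.le
  obtain ⟨Es, hEs, H1, H2⟩ := HF (unif 1) hreg s c η c hspos (hsc'.trans hcs0) hsc' hc1' hη'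
    (fun L _ hL => HT1 (unif 1) hsupp c hc hcc1 L hL)
  refine ⟨Es, hEs, ?_, ?_⟩
  · intro L _ hL
    obtain ⟨G, hG, hP, hflat⟩ := H1 L (hL.trans (Real.exp_le_exp.2 hexp1))
    have hm : Measurable (fun (ω : T d L → ℝ) y => ω y / c) := by fun_prop
    refine ⟨(fun ω y => ω y / c) ⁻¹' G, hm hG, ?_, fun ω hω => ?_⟩
    · have h1 := lawT_map d L (unif 1) (unif c) (fun t => c * t) (by fun_prop) (unif_scale c hc)
      have hm2 : Measurable (fun (ω : T d L → ℝ) x => c * ω x) := by fun_prop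
      rw [← h1, map_measureReal_apply hm2 (hm hG)]
      have h2 : (fun (ω : T d L → ℝ) x => c * ω x) ⁻¹' ((fun ω y => ω y / c) ⁻¹' G) = G := by
        ext ω
        simp only [Set.mem_preimage]
        have : (fun y => c * ω y / c) = ω := by
          funext y
          field_simp
        rw [this]
      rw [h2]
      refine le_trans ?_ hP
      have h3 : Real.exp (-k / s) ≤ Real.exp (-(k' * sc d c)) := by
        apply Real.exp_le_exp.2
        rw [neg_div]
        linarith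
      linarith
    · obtain ⟨E0, ψ, h1, h2, h3⟩ := hflat _ hω
      refine ⟨E0, ψ, h1, h2, fun x => ?_⟩
      rw [← h3 x, ← HT_eq]
      congr 1
      funext y
      field_simp
  · intro κ hκ hκ1
    have hκ' : Real.exp (-k / s) ≤ κ := by
      refine le_trans (Real.exp_le_exp.2 ?_) hκ
      rw [neg_div]
      linarith
    have hκ0 : 0 < κ := lt_of_lt_of_le (Real.exp_pos _) hκ
    have h1 := H2 κ hκ' hκ1
    set m : ℝ := k' * Real.sqrt κ / Real.log (2 / (κ * c)) with hm
    have hbase : 2 ≤ 2 / (κ * c) := by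
      rw [le_div_iff₀ (by positivity)]
      have : κ * c ≤ 1 := by nlinarith
      linarith
    have hX : 0 < Real.log (2 / (κ * c)) := Real.log_pos (by linarith)
    have hmpos : 0 < m := by positivity
    have hmm : m ≤ k * Real.sqrt κ / Real.log (2 / (κ * c)) := by
      rw [hm]
      gcongr
    -- transport to the law of `ω`
    have hA : ∀ᵐ ω ∂(Measure.infinitePi fun _ : Fin d → ℤ => unif c),
        Pool.Agent.H4R2.LO.Main.Dec d (-1) ω (Set.Iic (Es - 2 * d - κ)) m := by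
      have h2 := law_map d (unif 1) (unif c) (fun t => c * t) (by fun_prop) (unif_scale c hc)
      rw [← h2]
      have hm2 : Measurable (fun (ω : (Fin d → ℤ) → ℝ) x => c * ω x) := by fun_prop
      have hemb : MeasurableEmbedding (fun (ω : (Fin d → ℤ) → ℝ) x => c * ω x) :=
        (Homeomorph.piCongrRight fun _ => Homeomorph.mulLeft₀ c hc.ne').measurableEmbedding
      rw [hemb.ae_map_iff]
      filter_upwards [h1] with ω hω
      exact Pool.Agent.H4R2.LO.Main.dec_mono _ _ _ _ _ _ hω le_rfl hmm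
    have hB : ∀ᵐ ω ∂(Measure.infinitePi fun _ : Fin d → ℤ => unif c),
        Pool.Agent.H4R2.LO.Main.Dec d (-1) (fun x => -ω x) (Set.Iic (Es - 2 * d - κ)) m := by
      have h2 := law_map d (unif c) (unif c) (fun t => -t) (by fun_prop) (unif_neg c)
      have h3 := hA
      rw [← h2] at h3
      have hm2 : Measurable (fun (ω : (Fin d → ℤ) → ℝ) x => -ω x) := by fun_prop
      exact ae_of_ae_map hm2.aemeasurable h3
    filter_upwards [hA, hB] with ω hω hω'
    apply localized_of ω _ m hmpos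
    have e1 := Pool.Agent.H4R2.LO.Main.dec_shift (-1) (2 * d) _ _ m hω
    have e0 := Pool.Agent.H4R2.LO.Main.dec_stag _ _ _ m hω'
    rw [neg_neg] at e0
    have e2 := Pool.Agent.H4R2.LO.Main.dec_shift (-1) (2 * d) _ _ m
      (Pool.Agent.H4R2.LO.Main.dec_neg 1 _ _ m e0)
    simp only [neg_neg] at e2
    refine Pool.Agent.H4R2.LO.Main.dec_mono _ _ _ _ _ _
      (Pool.Agent.H4R2.LO.Main.dec_union _ _ _ _ m e1 e2) ?_ le_rfl
    rintro E (hE | hE)
    · left
      simp only [Set.mem_setOf_eq, Set.mem_Iic]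
      linarith
    · right
      simp only [Set.mem_setOf_eq, Set.mem_Iic]
      linarith

end Pool.Agent.Results.MP_562b47_mp.LocalizationToEdge
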