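import Pool.Agent.H10R2.AC.Final4

/-!
The uniform Anderson model `Δ_ω` on `Z^d` (more generally `-Δ` plus an independent identically
distributed potential with any bounded single-site density), with an additional random-sign
hopping `g sign(x,y) κ(x-y)` of arbitrarily small strength `g`, where `κ y` is comparable to
`|y|^(-a)`, `d/2 < a < 5d/8`: almost surely the operator is essentially self-adjoint and the
spectral measure of every site is absolutely continuous.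
-/

namespace Pool.Agent.Results.MP_562b47_mp.LongRangeAbsolutelyContinuous

open MeasureTheory ProbabilityTheory

/-- the law of independent fair coins, one for each unordered pair of sites -/
noncomputable def coinField (d : ℕ) : Measure (Sym2 (Fin d → ℤ) → Bool) :=
  Measure.infinitePi fun _ => (PMF.uniformOfFintype Bool).toMeasure

/-- the sign `1` or `-1` of a coin -/
def sign (c : Bool) : ℝ := if c then 1 else -1

/-- `(Δ_V ψ)(x) = - ∑_{|n|=1} (ψ(x+n) - ψ(x)) + V(x) ψ(x)` -/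
noncomputable def DeltaV {d : ℕ} (V : (Fin d → ℤ) → ℝ) (ψ : (Fin d → ℤ) → ℂ)
    (x : Fin d → ℤ) : ℂ :=
  -(∑ i : Fin d, ((ψ (x + Pi.single i 1) - ψ x) + (ψ (x - Pi.single i 1) - ψ x))) +
    (V x : ℂ) * ψ x

/-- `H = Δ_V + g B`, `B(x,y) = sign(s{x,y}) κ(x-y)` -/
noncomputable def H {d : ℕ} (g : ℝ) (κ : (Fin d → ℤ) → ℝ) (V : (Fin d → ℤ) → ℝ)
    (s : Sym2 (Fin d → ℤ) → Bool) (ψ : (Fin d → ℤ) → ℂ) (x : Fin d → ℤ) : ℂ :=
  DeltaV V ψ x + (g : ℂ) * ∑' y, ((sign (s s(x, y)) * κ (x - y) : ℝ) : ℂ) * ψ y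

/-- `ψ` is square summable and solves `(H - z) ψ = δ_x` at all sites -/
def IsGreen {d : ℕ} (g : ℝ) (κ : (Fin d → ℤ) → ℝ) (V : (Fin d → ℤ) → ℝ)
    (s : Sym2 (Fin d → ℤ) → Bool) (x : Fin d → ℤ) (z : ℂ) (ψ : (Fin d → ℤ) → ℂ) : Prop :=
  Summable (fun y => ‖ψ y‖ ^ 2) ∧
    ∀ y, H g κ V s ψ y - z * ψ y = if y = x then 1 else 0

theorem result (d : ℕ) (hd : 0 < d) (g : ℝ) (hg : g ≠ 0)
    (μ : Measure ℝ) [IsProbabilityMeasure μ] (D : ℝ) (hμ : μ ≤ ENNReal.ofReal D • volume)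
    (κ : (Fin d → ℤ) → ℝ) (hκ0 : κ 0 = 0) (hκs : ∀ y, κ (-y) = κ y)
    (a c C : ℝ) (ha1 : (d : ℝ) / 2 < a) (ha2 : a < 5 * d / 8) (hc : 0 < c)
    (hκ : ∀ y, y ≠ 0 → c * ‖y‖ ^ (-a) ≤ |κ y| ∧ |κ y| ≤ C * ‖y‖ ^ (-a)) :
    ∀ᵐ ω : ((Fin d → ℤ) → ℝ) × (Sym2 (Fin d → ℤ) → Bool)
      ∂((Measure.infinitePi fun _ : Fin d → ℤ => μ).prod (coinField d)),
      ∀ x : Fin d → ℤ, ∃ ν : Measure ℝ, IsProbabilityMeasure ν ∧ ν ≪ volume ∧
        ∀ z : ℂ, z.im ≠ 0 → ∃ ψ : (Fin d → ℤ) → ℂ, IsGreen g κ ω.1 ω.2 x z ψ ∧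
          (∀ φ, IsGreen g κ ω.1 ω.2 x z φ → φ = ψ) ∧
          ψ x = ∫ u : ℝ, 1 / ((u : ℂ) - z) ∂ν := by
  have hD : 0 ≤ D := by
    by_contra hneg
    have h1 : ENNReal.ofReal D = 0 := ENNReal.ofReal_of_nonpos (not_le.1 hneg).le
    rw [h1, zero_smul] at hμ
    have h2 := hμ Set.univ
    rw [measure_univ] at h2
    simp at h2
  have h := H10PL.final_ac hd (-1) 1 g (2 * d) one_ne_zero hg μ hD hμ κ hκ0 hκs ha1 ha2 hc hκ
  filter_upwards [h] with ω hω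
  have hiff : ∀ (x : Fin d → ℤ) (z : ℂ) (ψ : (Fin d → ℤ) → ℂ),
      H10PL.GreenH (-1) 1 g (2 * d) κ ω x z ψ ↔ IsGreen g κ ω.1 ω.2 x z ψ := by
    intro x z ψ
    unfold H10PL.GreenH IsGreen
    refine and_congr_right fun _ => forall_congr' fun y => ?_
    have h3 : ∑ i : Fin d, ((ψ (y + Pi.single i 1) - ψ y) + (ψ (y - Pi.single i 1) - ψ y)) =
        (∑ i : Fin d, (ψ (y + Pi.single i 1) + ψ (y - Pi.single i 1))) - 2 * d * ψ y := by
      have h4 : ∀ i : Fin d, ((ψ (y + Pi.single i 1) - ψ y) + (ψ (y - Pi.single i 1) - ψ y)) =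
          (ψ (y + Pi.single i 1) + ψ (y - Pi.single i 1)) - 2 * ψ y := fun i => by ring
      rw [Finset.sum_congr rfl fun i _ => h4 i, Finset.sum_sub_distrib, Finset.sum_const,
        Finset.card_univ, Fintype.card_fin, nsmul_eq_mul]
      ring
    have h5 : ∀ w, H10PL.sg (ω.2 s(y, w)) = sign (ω.2 s(y, w)) := fun w => rfl
    unfold H DeltaV
    rw [h3, sub_eq_iff_eq_add']
    simp only [h5]
    push_cast
    constructor
    · intro h
      rw [← h]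
      ring
    · intro h
      rw [← h]
      ring
  intro x
  obtain ⟨ν, h1, h2, h3⟩ := hω x
  refine ⟨ν, h1, h2, fun z hz => ?_⟩
  obtain ⟨ψ, h4, h5, h6⟩ := h3 z hz
  exact ⟨ψ, (hiff x z ψ).1 h4, fun φ hφ => h5 φ ((hiff x z φ).2 hφ), h6⟩

end Pool.Agent.Results.MP_562b47_mp.LongRangeAbsolutelyContinuous
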