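import Pool.Agent.H5R2.NB.FIN

/-!
# The uniform Anderson model has no ballistic transport

`Δ_ω = -Δ + ω` on `ℤ^d`, `ω_j` iid uniform on `[-c, c]`. For every `d`, every `c > 0` and at all
energies together: the mean square displacement of `e^{-itΔ_ω} δ_0` is `o(t²)`.
-/

set_option autoImplicit false

open MeasureTheory Filter Topology ProbabilityTheory
open scoped BigOperators ENNReal NNReal

namespace Pool.Agent.Results.MP_562b47_mp.NoBallisticTransport

/-- the operator of the problem, `(Δ_ω u)(j) = -∑_{|n|=1} (u(j+n) - u(j)) + ω_j u(j)` (the unit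
vectors `n` are `± e_i`) -/
noncomputable def H {d : ℕ} (ω : (Fin d → ℤ) → ℝ) (u : (Fin d → ℤ) → ℂ) (j : Fin d → ℤ) : ℂ :=
  -(∑ i : Fin d, ((u (j + Pi.single i 1) - u j) + (u (j - Pi.single i 1) - u j))) + (ω j : ℂ) * u j

/-- `u` is the evolution `e^{-itΔ_ω} δ_0`: it starts at `δ_0`, solves `i ∂_t u = Δ_ω u` at all sites
and times, and `∑_j |u(t,j)|² = 1` at all times -/
structure Evolution {d : ℕ} (ω : (Fin d → ℤ) → ℝ) (u : ℝ → (Fin d → ℤ) → ℂ) : Prop where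
  init : u 0 = Pi.single 0 1
  schrodinger : ∀ t j, HasDerivAt (fun s => u s j) (-Complex.I * H ω (u t) j) t
  norm_one : ∀ t, HasSum (fun j => ‖u t j‖ ^ 2) 1

/-- the uniform law on `[-c, c]` -/
noncomputable def unif (c : ℝ) : Measure ℝ :=
  ENNReal.ofReal (2 * c)⁻¹ • volume.restrict (Set.Icc (-c) c)

/-- the law of iid variables with law `μ` on `ℤ^d` -/
noncomputable def iid (d : ℕ) (μ : Measure ℝ) : Measure ((Fin d → ℤ) → ℝ) :=
  Measure.infinitePi fun _ => μ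

/-- the mean square displacement at time `t`, `𝔼 ∑_j |j|² |Ψ(ω,t,j)|²`, `|j|` the Euclidean norm -/
noncomputable def meanSquare (d : ℕ) (μ : Measure ℝ)
    (Ψ : ((Fin d → ℤ) → ℝ) → ℝ → (Fin d → ℤ) → ℂ) (t : ℝ) : ℝ≥0∞ :=
  ∫⁻ ω, ∑' j : Fin d → ℤ, ENNReal.ofReal (∑ i : Fin d, (j i : ℝ) ^ 2) * ‖Ψ ω t j‖ₑ ^ 2 ∂(iid d μ)

/-- For every `d` and every `c > 0`: for every potential there is exactly one evolution of `δ_0`,
the law of one variable is a probability measure, and the mean square displacement divided by `t²`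
tends to zero as `t → ∞`. -/
theorem result (d : ℕ) (c : ℝ) (hc : 0 < c) :
    (∀ ω : (Fin d → ℤ) → ℝ, ∃! u, Evolution ω u) ∧ IsProbabilityMeasure (unif c) ∧
    ∀ Ψ : ((Fin d → ℤ) → ℝ) → ℝ → (Fin d → ℤ) → ℂ, (∀ ω, Evolution ω (Ψ ω)) →
      Tendsto (fun t : ℝ => meanSquare d (unif c) Ψ t / ENNReal.ofReal (t ^ 2)) atTop (𝓝 0) := by
  have key : ∀ (ω : (Fin d → ℤ) → ℝ) (u : ℝ → (Fin d → ℤ) → ℂ), Evolution ω u ↔
      Pool.Agent.H5R2.NB.GEN.IsEvo (-1) (fun x => 2 * d + 1 * ω x) u := by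
    intro ω u
    have e : ∀ t x, Pool.Agent.H5R2.NB.hopf (-1) (u t) x +
        (((2 * d + 1 * ω x : ℝ)) : ℂ) * u t x = H ω (u t) x := by
      intro t x
      have := Pool.Agent.H5R2.NB.FIN.hop_eq ω (u t) x
      rw [one_mul]
      exact this
    constructor
    · intro h
      exact ⟨h.init, fun t x => by rw [e]; exact h.schrodinger t x, h.norm_one⟩
    · intro h
      exact ⟨h.init, fun t x => by rw [← e]; exact h.deriv t x, h.norm⟩
  have hp : IsProbabilityMeasure (unif c) := Pool.Agent.H5R2.NB.LAW.uniform_prob c hc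
  refine ⟨fun ω => ?_, hp, fun Ψ hΨ => ?_⟩
  · simp only [key]
    exact Pool.Agent.H5R2.NB.GEN.existsUnique_evo Pool.Agent.H5R2.NB.ALL.a_EX
      Pool.Agent.H5R2.NB.ALL.a_UN (-1) (fun x => 2 * d + 1 * ω x)
  · exact Pool.Agent.H5R2.NB.GEN.main Pool.Agent.H5R2.NB.ALL.a_EX Pool.Agent.H5R2.NB.ALL.a_UN
      Pool.Agent.H5R2.NB.ALL.a_CV Pool.Agent.H5R2.NB.ALL.a_MAIN (-1) (unif c)
      (fun r => 2 * d + 1 * r) (by fun_prop) _
      (Pool.Agent.H5R2.NB.LAW.map_affine_le (unif c) _ (Pool.Agent.H5R2.NB.LAW.uniform_le c)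
        (2 * d) 1 one_ne_zero) Ψ (fun ω => (key ω _).1 (hΨ ω))

end Pool.Agent.Results.MP_562b47_mp.NoBallisticTransport
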